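import Mathlib
import Pool.Agent.H958.RL.Stm2
import Pool.Graph.R_seed8.W657.RD.PBas

/-!
# Project RL: the upper bound for `c ≤ (log log n) ^ 2`
-/

set_option autoImplicit false

namespace Pool.Agent.H94.RL.Upmid

open Finset Filter Topology
open scoped Classical
open Pool.Agent.W830.RD (Om gle Pr Rlz)
open Pool.Agent.H958.RO (dimG Star)
open Pool.Agent.H958.RL

theorem ev : ∀ᶠ n : ℕ in atTop, (Real.log (Real.log n)) ^ 2 ≤ Real.log n ∧
    Real.log n < (n : ℝ) := by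
  have h1 : Tendsto (fun n : ℕ => Real.log (n : ℝ)) atTop atTop :=
    Real.tendsto_log_atTop.comp tendsto_natCast_atTop_atTop
  have h2 : ∀ᶠ x : ℝ in atTop, (Real.log x) ^ 2 ≤ x := by
    have h3 := (Real.isLittleO_pow_log_id_atTop (n := 2)).bound (show (0 : ℝ) < 1 from one_pos)
    filter_upwards [h3, eventually_ge_atTop (0 : ℝ)] with x hx hx0
    rw [one_mul, Real.norm_of_nonneg (sq_nonneg _), id_eq, Real.norm_of_nonneg hx0] at hx
    exact hx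
  filter_upwards [h1.eventually h2, eventually_gt_atTop 0] with n hn hn0
  refine ⟨hn, ?_⟩
  have hn1 : (0 : ℝ) < n := by exact_mod_cast hn0
  have := Real.log_le_sub_one_of_pos hn1
  linarith

theorem main (h1 : S_DETU) (h2 : S_STARU) (h3 : S_SMALLU) (h4 : S_FKNUM) : S_UPMID := by
  intro ε hε hε2
  obtain ⟨A, hA, hStar⟩ := h2
  obtain ⟨c1, hc1, hSm⟩ := h3 (ε / 2) A (half_pos hε) hA
  obtain ⟨c2, -, hnum⟩ := h4 ε hε hε2
  refine ⟨max c1 c2, hc1.trans (le_max_left _ _), fun η' hη' => ?_⟩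
  obtain ⟨N1, hN1⟩ := hStar (η' / 2) (half_pos hη')
  obtain ⟨N2, hN2⟩ := hSm (η' / 2) (half_pos hη')
  obtain ⟨N3, hN3⟩ := eventually_atTop.1 ev
  refine ⟨max N1 (max N2 N3), fun n hn c hc hcl => ?_⟩
  have hn1 : N1 ≤ n := (le_max_left _ _).trans hn
  have hn2 : N2 ≤ n := ((le_max_left _ _).trans (le_max_right _ _)).trans hn
  have hn3 : N3 ≤ n := ((le_max_right _ _).trans (le_max_right _ _)).trans hn
  obtain ⟨hl1, hl2⟩ := hN3 n hn3
  have hcc1 : c1 ≤ c := (le_max_left _ _).trans hc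
  have hcc2 : c2 ≤ c := (le_max_right _ _).trans hc
  have hc1' : 1 ≤ c := hc1.trans hcc1
  have hc0 : 0 < c := lt_of_lt_of_le one_pos hc1'
  have hclog : c ≤ Real.log n := hcl.trans hl1
  have hcn : c < n := hclog.trans_lt hl2
  have hn0 : (0 : ℝ) < n := hc0.trans hcn
  obtain ⟨T, hT, hP1⟩ := hN1 n hn1 c hc1' hcl
  have hP2 := hN2 n hn2 c hcc1 hclog
  obtain ⟨b1, b2, b3, b4, b5, b6⟩ := Pool.Agent.W657.RD.PBas.main (c / n) n (div_pos hc0 hn0)
    ((div_lt_one hn0).2 hcn)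
  have h5 : Pr (c / n) n (fun E => Real.exp ((1 + ε) * c) < (dimG E : ℝ)) ≤
      Pr (c / n) n (fun E => ¬ Star T (18 * T + 2) (Real.exp (-(A * c ^ 2))) E) +
      Pr (c / n) n (fun E => Real.exp (-(A * c ^ 2)) * n <
        ((NK E ⌈Real.exp ((1 + ε / 2) * c)⌉₊).card : ℝ)) := by
    refine (b3 _ (fun E => ¬ Star T (18 * T + 2) (Real.exp (-(A * c ^ 2))) E ∨
      Real.exp (-(A * c ^ 2)) * n < ((NK E ⌈Real.exp ((1 + ε / 2) * c)⌉₊).card : ℝ)) ?_).trans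
      (b4 _ _)
    intro E hE hlt
    by_contra hcon
    push Not at hcon
    obtain ⟨d1, d2⟩ := hcon
    have hR := h1 n ⌈Real.exp ((1 + ε / 2) * c)⌉₊ T _ E hE hT d2 d1
    have hd : dimG E ≤ 2 * FK ⌈Real.exp ((1 + ε / 2) * c)⌉₊ + 10 := Nat.sInf_le hR
    have hd2 : (dimG E : ℝ) ≤ ((2 * FK ⌈Real.exp ((1 + ε / 2) * c)⌉₊ + 10 : ℕ) : ℝ) :=
      Nat.cast_le.2 hd
    exact absurd hlt (not_lt.2 (hd2.trans (hnum c hcc2)))
  linarith

end Pool.Agent.H94.RL.Upmid
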